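import Pool.Agent.H79.NFG.Defs

/-!
# The short statement is equivalent to the earlier one
-/

namespace Pool.NFG

theorem generates_iff (A : Type) [CStarAlgebra A] (F : Set A) :
    Generates A F ↔ (StarAlgebra.adjoin ℂ F).topologicalClosure = ⊤ := by
  constructor
  · intro hd
    refine SetLike.coe_injective ?_
    rw [StarSubalgebra.topologicalClosure_coe, Dense.closure_eq hd]
    rfl
  · intro h
    have h2 : ((StarAlgebra.adjoin ℂ F).topologicalClosure : Set A) = Set.univ := by
      rw [h]; rfl
    rw [StarSubalgebra.topologicalClosure_coe] at h2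
    exact dense_iff_closure_eq.mpr h2

theorem separable_iff (A : Type) [CStarAlgebra A] :
    Separable A ↔ TopologicalSpace.SeparableSpace A :=
  ⟨fun ⟨S, hc, hd⟩ => ⟨S, hc, hd⟩, fun _ => TopologicalSpace.exists_countable_dense A⟩

/-- The old statement and the new one say the same. -/
theorem old_iff_new :
    (∃ (A : Type) (_ : CStarAlgebra A),
      Nontrivial A ∧ TopologicalSpace.SeparableSpace A ∧
      (∀ I : TwoSidedIdeal A, I = ⊥ ∨ I = ⊤) ∧
      ∀ F : Set A, F.Finite → (StarAlgebra.adjoin ℂ F).topologicalClosure ≠ ⊤) ↔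
    ∃ (A : Type) (_ : CStarAlgebra A), Simple A ∧ Separable A ∧
      ∀ F : Set A, F.Finite → ¬ Generates A F := by
  constructor
  · rintro ⟨A, inst, hnt, hsep, hsimp, hF⟩
    exact ⟨A, inst, ⟨hnt, hsimp⟩, (separable_iff A).mpr hsep,
      fun F hfin hd => hF F hfin ((generates_iff A F).mp hd)⟩
  · rintro ⟨A, inst, ⟨hnt, hsimp⟩, hsep, hF⟩
    exact ⟨A, inst, hnt, (separable_iff A).mp hsep, hsimp,
      fun F hfin he => hF F hfin ((generates_iff A F).mpr he)⟩

end Pool.NFG
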