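import Mathlib

/-!
# Single generation of unital simple separable C*-algebras: definitions

`CStarAlgebra A` is Mathlib's class of unital complex C*-algebras: a complex *-algebra with unit,
complete for a submultiplicative norm with `‖a⋆ * a‖ = ‖a‖ * ‖a‖`. The zero algebra is allowed.
-/

namespace Pool.NFG

/-- `A` is simple: it is not zero, and its only two-sided ideals (closed or not) are `0` and `A`. -/
def Simple (A : Type) [CStarAlgebra A] : Prop :=
  Nontrivial A ∧ ∀ I : TwoSidedIdeal A, I = ⊥ ∨ I = ⊤

/-- `A` is separable: it has a countable dense subset. -/
def Separable (A : Type) [CStarAlgebra A] : Prop :=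
  ∃ S : Set A, S.Countable ∧ Dense S

/-- The set `F` generates `A`: the smallest *-subalgebra of `A` containing `F` and the unit is
dense in `A`. -/
def Generates (A : Type) [CStarAlgebra A] (F : Set A) : Prop :=
  Dense (StarAlgebra.adjoin ℂ F : Set A)

end Pool.NFG
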