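import Pool.Agent.H79.NFG.Defs
import Pool.Agent.H53.SGC.SI
import Pool.Agent.H53.SGC.NF
import Pool.Agent.H53.SGC.GA
import Pool.Agent.H53.SGC.SPH
import Pool.Agent.H53.SGC.ZE
import Pool.Agent.H59.SGC.NG
import Pool.Agent.H62.SGC.SE
import Pool.Agent.H70.SGC.MBU
import Pool.Agent.H81.SGC.GC
import Pool.Agent.H81.SGC.GD
import Pool.Agent.H83.SGC.COMB

/-!
# A unital simple separable C*-algebra that is not finitely generated: assembly
-/

namespace Pool.NFG

open Pool.SG

theorem oldForm : ∃ (A : Type) (_ : CStarAlgebra A),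
    Nontrivial A ∧ TopologicalSpace.SeparableSpace A ∧
    (∀ I : TwoSidedIdeal A, I = ⊥ ∨ I = ⊤) ∧
    ∀ F : Set A, F.Finite → (StarAlgebra.adjoin ℂ F).topologicalClosure ≠ ⊤ := by
  have hE := el_thm
  have hEA := ela hE
  have hGC := gc hE hEA
  have hGG := gg hE hEA hGC
  have hGA := ga hEA hGC
  have hCL := cl hE hEA
  have hGD := gd hGG hGA hCL hGC
  have hNG := ng (mbu comb sph) hGD hE hEA
  obtain ⟨z, hz⟩ := ze
  have hs : IsSimpleRing (AA z) := si hE hEA hGC hGA hGD z hz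
  refine ⟨AA z, instAA z, ?_, se z, fun I => hs.simple.eq_bot_or_eq_top I, nf hNG hE hEA hGC z⟩
  exact inferInstance

theorem main : ∃ (A : Type) (_ : CStarAlgebra A), Simple A ∧ Separable A ∧
    ∀ F : Set A, F.Finite → ¬ Generates A F := by
  obtain ⟨A, inst, hnt, hsep, hsimp, hF⟩ := oldForm
  refine ⟨A, inst, ⟨hnt, hsimp⟩, ?_, fun F hfin hd => hF F hfin ?_⟩
  · obtain ⟨S, hc, hd⟩ := TopologicalSpace.exists_countable_dense A
    exact ⟨S, hc, hd⟩
  · refine SetLike.coe_injective ?_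
    rw [StarSubalgebra.topologicalClosure_coe, Dense.closure_eq hd]
    rfl

end Pool.NFG
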